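import Mathlib
import Pool.Agent.H297R3.SL.Bq

set_option autoImplicit false

namespace Pool.Agent.H297R3.SL

/-- Labels: a tag `0, ..., 4` and two bits. -/
abbrev Lab : Type := Fin 5 × Bool × Bool

/-- type of interaction: 0 trivial, 1 inside the pairs `{1, 2}`, `{3, 4}`, 2 between the pairs -/
def ty (s t : Fin 5) : Fin 3 :=
  if s = t then 0 else if s = 0 then 0 else if t = 0 then 0 else
    if (s = 1 ∨ s = 2) ↔ (t = 1 ∨ t = 2) then 1 else 2

/-- the bits added to `u` when it meets `v` -/
def act (u v : Lab) : Lab :=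
  match ty u.1 v.1 with
  | 0 => u
  | 1 => (u.1, u.2.1, xor u.2.2 (xor u.2.1 v.2.1))
  | 2 => (u.1, xor u.2.1 v.2.2, u.2.2)

/-- The structure as a biquandle. -/
def LA (u v : Lab) : Lab := act v u

def LC (u v : Lab) : Lab := act u v

theorem act_act (u v : Lab) : act (act u v) v = u := by
  revert u v; decide +kernel

theorem LA_LA (u v : Lab) : LA u (LA u v) = v := by
  revert u v; decide +kernel

theorem LC_LC (u v : Lab) : LC (LC u v) v = u := by
  revert u v; decide +kernel

theorem LS_LS (u v : Lab) : LA (LA u v) (LC u v) = u ∧ LC (LA u v) (LC u v) = v := by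
  revert u v; decide +kernel

theorem Lr1 (u v : Lab) : LA u v = u ↔ LC u v = v := by
  revert u v; decide +kernel

theorem Ltag (u v : Lab) : (LA u v).1 = v.1 ∧ (LC u v).1 = u.1 := by
  revert u v; decide +kernel

theorem Lsame (u v : Lab) (h : u.1 = v.1) : LA u v = v ∧ LC u v = u := by
  revert u v; decide +kernel

set_option maxRecDepth 100000 in
theorem Lyb (a b c : Lab) : LA (LA a b) (LA (LC a b) c) = LA a (LA b c) ∧
    LC (LA a b) (LA (LC a b) c) = LA (LC a (LA b c)) (LC b c) ∧
      LC (LC a b) c = LC (LC a (LA b c)) (LC b c) := by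
  revert a b c; decide +kernel

/-- The biquandle `Lab`. -/
def bq5 : Bq Lab where
  A := LA
  C := LC
  A_inj := by
    intro u y z h
    have h2 : LA u (LA u y) = LA u (LA u z) := congrArg _ h
    rwa [LA_LA, LA_LA] at h2
  A_surj := fun u y => ⟨LA u y, LA_LA u y⟩
  C_inj := by
    intro v y z h
    have h2 : LC (LC y v) v = LC (LC z v) v := congrArg (fun t => LC t v) h
    rwa [LC_LC, LC_LC] at h2
  C_surj := fun v y => ⟨LC y v, LC_LC y v⟩
  S_inj := by
    intro u v u' v' h1 h2
    have h3 := LS_LS u v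
    have h4 := LS_LS u' v'
    rw [h1, h2] at h3
    exact ⟨h3.1.symm.trans h4.1, h3.2.symm.trans h4.2⟩
  S_surj := fun p q => ⟨LA p q, LC p q, LS_LS p q⟩
  y1 := fun a b c => (Lyb a b c).1
  y2 := fun a b c => (Lyb a b c).2.1
  y3 := fun a b c => (Lyb a b c).2.2
  r1 := Lr1

end Pool.Agent.H297R3.SL
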