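import Mathlib
import Pool.Agent.H297R3.SL.Defs

set_option autoImplicit false

namespace Pool.Agent.H297R3.SL

/-- Self-virtualization: a classical crossing both strands of which belong to the same component
`i` (both incoming edges lie on the strand which starts at the `i`-th point at the bottom) is
replaced by a virtual crossing. As virtual crossings are not recorded, only the two marked points
remain. -/
inductive SelfVirtualization {n : ℕ} : Diagram n → Diagram n → Prop
  | mk (s : Bool) (a b c d : Edge) (bot top : Fin n → Edge) (Γ : List Piece) (i : Fin n)
      (h₁ : Relation.ReflTransGen (Next (Piece.cross s a b c d :: Γ)) (bot i) a)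
      (h₂ : Relation.ReflTransGen (Next (Piece.cross s a b c d :: Γ)) (bot i) c) :
      SelfVirtualization ⟨bot, top, Piece.cross s a b c d :: Γ⟩
        ⟨bot, top, Piece.dot a b :: Piece.dot c d :: Γ⟩

/-- The quotient `vSL_n^sv` of `vSL_n` by self-virtualization. -/
def vSLsv (n : ℕ) : Type :=
  Quot fun D D' : StringLinkDiagram n => Move D.1 D'.1 ∨ SelfVirtualization D.1 D'.1

end Pool.Agent.H297R3.SL
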