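import Mathlib
import Pool.Agent.H297R3.SL.Braid
import Pool.Agent.H297R3.SV.Defs
import Pool.Agent.H297R3.SV.Bq5

set_option autoImplicit false

namespace Pool.Agent.H297R3.SL

open Pool.Agent.Helper718.VB

/-! ### tags -/

theorem tag_K {s : Bool} {oi oo ui uo : Lab} (h : bq5.K s oi oo ui uo) :
    oi.1 = oo.1 ∧ ui.1 = uo.1 := by
  cases s
  · obtain ⟨h1, h2⟩ := h
    have h3 : LA ui oi = oo := h1
    have h4 : LC ui oi = uo := h2
    rw [← h3, ← h4]
    exact ⟨(Ltag _ _).1.symm, (Ltag _ _).2.symm⟩
  · obtain ⟨h1, h2⟩ := h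
    have h3 : LA uo oo = oi := h1
    have h4 : LC uo oo = ui := h2
    rw [← h3, ← h4]
    exact ⟨(Ltag _ _).1, (Ltag _ _).2⟩

theorem K_same {s : Bool} {oi oo ui uo : Lab} (h : oi.1 = ui.1) :
    bq5.K s oi oo ui uo ↔ oi = oo ∧ ui = uo := by
  constructor
  · intro hK
    have ht := tag_K hK
    cases s
    · obtain ⟨h1, h2⟩ := hK
      have h3 : LA ui oi = oo := h1
      have h4 : LC ui oi = uo := h2
      have h5 := Lsame ui oi h.symm
      exact ⟨h5.1.symm.trans h3, h5.2.symm.trans h4⟩
    · obtain ⟨h1, h2⟩ := hK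
      have h3 : LA uo oo = oi := h1
      have h4 : LC uo oo = ui := h2
      have h5 := Lsame uo oo (by rw [← ht.1, ← ht.2, h])
      exact ⟨(h5.1.symm.trans h3).symm, (h5.2.symm.trans h4).symm⟩
  · rintro ⟨rfl, rfl⟩
    have h5 := Lsame ui oi h.symm
    cases s
    · exact h5
    · exact h5

theorem tag_next {D : List Piece} {f : Edge → Lab} (hf : ∀ p ∈ D, bq5.Sat f p) {a b : Edge}
    (h : Next D a b) : (f a).1 = (f b).1 := by
  obtain ⟨p, hp, h1⟩ := h
  have h2 := hf p hp
  cases p with
  | cross s o o' u u' =>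
    have h3 := tag_K h2
    simp only [Piece.passages, List.mem_cons, List.not_mem_nil, or_false, Prod.mk.injEq] at h1
    rcases h1 with ⟨rfl, rfl⟩ | ⟨rfl, rfl⟩
    · exact h3.1
    · exact h3.2
  | dot o o' =>
    simp only [Piece.passages, List.mem_cons, List.not_mem_nil, or_false, Prod.mk.injEq] at h1
    obtain ⟨rfl, rfl⟩ := h1
    have h3 : f a = f b := h2
    rw [h3]

theorem tag_path {D : List Piece} {f : Edge → Lab} (hf : ∀ p ∈ D, bq5.Sat f p) {a b : Edge}
    (h : Relation.ReflTransGen (Next D) a b) : (f a).1 = (f b).1 := by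
  induction h with
  | refl => rfl
  | tail _ h2 ih => exact ih.trans (tag_next hf h2)

theorem path_mono' {r r' : Edge → Edge → Prop} (h : ∀ a b, r a b → r' a b) {a b : Edge}
    (hn : Relation.ReflTransGen r a b) : Relation.ReflTransGen r' a b := by
  induction hn with
  | refl => exact Relation.ReflTransGen.refl
  | tail _ h2 ih => exact ih.tail (h _ _ h2)

theorem next_sv {s : Bool} {a b c d : Edge} {Γ : List Piece} {x y : Edge}
    (h : Next (Piece.cross s a b c d :: Γ) x y) :
    Next (Piece.dot a b :: Piece.dot c d :: Γ) x y := by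
  obtain ⟨p, hp, h1⟩ := h
  rcases List.mem_cons.mp hp with rfl | hp
  · simp only [Piece.passages, List.mem_cons, List.not_mem_nil, or_false] at h1
    rcases h1 with h1 | h1
    · exact ⟨Piece.dot a b, by simp, by simp [Piece.passages, h1]⟩
    · exact ⟨Piece.dot c d, by simp, by simp [Piece.passages, h1]⟩
  · exact ⟨p, by simp [hp], h1⟩

theorem col_sv {n : ℕ} {D D' : Diagram n} (h : SelfVirtualization D D') (x y : Fin n → Lab) :
    bq5.Col D x y ↔ bq5.Col D' x y := by
  cases h with
  | mk s a b c d bot top Γ i h₁ h₂ =>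
    constructor
    · rintro ⟨f, hf, hx, hy⟩
      refine ⟨f, ?_, hx, hy⟩
      have h3 := tag_path hf h₁
      have h4 := tag_path hf h₂
      have h5 : bq5.K s (f a) (f b) (f c) (f d) := hf (Piece.cross s a b c d) (by simp)
      obtain ⟨h6, h7⟩ := (K_same (h3.symm.trans h4)).mp h5
      intro p hp
      rcases List.mem_cons.mp hp with rfl | hp
      · exact h6
      rcases List.mem_cons.mp hp with rfl | hp
      · exact h7
      exact hf p (by simp [hp])
    · rintro ⟨f, hf, hx, hy⟩
      refine ⟨f, ?_, hx, hy⟩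
      have h3 := tag_path (D := Piece.dot a b :: Piece.dot c d :: Γ) hf
        (path_mono' (fun _ _ h => next_sv h) h₁)
      have h4 := tag_path (D := Piece.dot a b :: Piece.dot c d :: Γ) hf
        (path_mono' (fun _ _ h => next_sv h) h₂)
      have h6 : f a = f b := hf (Piece.dot a b) (by simp)
      have h7 : f c = f d := hf (Piece.dot c d) (by simp)
      intro p hp
      rcases List.mem_cons.mp hp with rfl | hp
      · exact (K_same (h3.symm.trans h4)).mpr ⟨h6, h7⟩
      exact hf p (by simp [hp])

theorem col_eqv_sv {n : ℕ} {D D' : StringLinkDiagram n}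
    (h : Relation.EqvGen (fun D D' : StringLinkDiagram n =>
      Move D.1 D'.1 ∨ SelfVirtualization D.1 D'.1) D D')
    (x y : Fin n → Lab) : bq5.Col D.1 x y ↔ bq5.Col D'.1 x y := by
  induction h with
  | rel D D' h =>
    rcases h with h | h
    · exact bq5.col_move h D.2 D'.2 x y
    · exact col_sv h x y
  | refl D => exact Iff.rfl
  | symm D D' _ ih => exact ih.symm
  | trans D D' D'' _ _ ih1 ih2 => exact ih1.trans ih2

/-- Diagrams equivalent up to self-virtualization have the same colourings. -/
theorem col_vSLsv {n : ℕ} {D D' : StringLinkDiagram n}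
    (h : (Quot.mk _ D : vSLsv n) = Quot.mk _ D') (x y : Fin n → Lab) :
    bq5.Col D.1 x y ↔ bq5.Col D'.1 x y := col_eqv_sv (Quot.eqvGen_exact h) x y

/-! ### monotone diagrams -/

theorem straight_det {X : Type} {B : Bq X} {n k : ℕ} (i : Fin (n - 1)) {f g : Edge → X}
    (hf : ∀ p ∈ straight n k i, B.Sat f p) (hg : ∀ p ∈ straight n k i, B.Sat g p)
    (h : level n f (k + 1) = level n g (k + 1)) (j : Fin n) (h1 : j ≠ posL i) (h2 : j ≠ posR i) :
    level n f k j = level n g k j := by
  rw [(straight_ok i f).mp hf j h1 h2, (straight_ok i g).mp hg j h1 h2, h]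

theorem layer_det {X : Type} {B : Bq X} {n k : ℕ} (l : Letter n) {f g : Edge → X}
    (hf : ∀ p ∈ layer n k l, B.Sat f p) (hg : ∀ p ∈ layer n k l, B.Sat g p)
    (h : level n f (k + 1) = level n g (k + 1)) : level n f k = level n g k := by
  cases l with
  | pos i =>
    simp only [layer, List.mem_cons, forall_eq_or_imp] at hf hg
    obtain ⟨⟨f1, f2⟩, f3⟩ := hf
    obtain ⟨⟨g1, g2⟩, g3⟩ := hg
    have hL : f (k + 1, i) = g (k + 1, i) := congrFun h (posL i)
    have hR : f (k + 1, i + 1) = g (k + 1, i + 1) := congrFun h (posR i)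
    funext j
    by_cases hj : j = posL i
    · subst hj
      show f (k, i) = g (k, i)
      rw [← f1, ← g1, hL, hR]
    by_cases hj' : j = posR i
    · subst hj'
      show f (k, i + 1) = g (k, i + 1)
      rw [← f2, ← g2, hL, hR]
    exact straight_det i f3 g3 h j hj hj'
  | neg i =>
    simp only [layer, List.mem_cons, forall_eq_or_imp] at hf hg
    obtain ⟨⟨f1, f2⟩, f3⟩ := hf
    obtain ⟨⟨g1, g2⟩, g3⟩ := hg
    have hL : f (k + 1, i) = g (k + 1, i) := congrFun h (posL i)
    have hR : f (k + 1, i + 1) = g (k + 1, i + 1) := congrFun h (posR i)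
    rw [hL, ← g1] at f1
    rw [hR, ← g2] at f2
    obtain ⟨e1, e2⟩ := B.S_inj _ _ _ _ f1 f2
    funext j
    by_cases hj : j = posL i
    · subst hj
      exact e1
    by_cases hj' : j = posR i
    · subst hj'
      exact e2
    exact straight_det i f3 g3 h j hj hj'
  | vir i =>
    simp only [layer, List.mem_cons, forall_eq_or_imp] at hf hg
    obtain ⟨f1, f2, f3⟩ := hf
    obtain ⟨g1, g2, g3⟩ := hg
    have hL : f (k + 1, i) = g (k + 1, i) := congrFun h (posL i)
    have hR : f (k + 1, i + 1) = g (k + 1, i + 1) := congrFun h (posR i)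
    have f1' : f (k, i) = f (k + 1, i + 1) := f1
    have f2' : f (k, i + 1) = f (k + 1, i) := f2
    have g1' : g (k, i) = g (k + 1, i + 1) := g1
    have g2' : g (k, i + 1) = g (k + 1, i) := g2
    funext j
    by_cases hj : j = posL i
    · subst hj
      show f (k, i) = g (k, i)
      rw [f1', g1', hR]
    by_cases hj' : j = posR i
    · subst hj'
      show f (k, i + 1) = g (k, i + 1)
      rw [f2', g2', hL]
    exact straight_det i f3 g3 h j hj hj'

theorem layers_det {X : Type} {B : Bq X} {n : ℕ} {f g : Edge → X} (w : List (Letter n)) : ∀ k,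
    (∀ p ∈ layers n k w, B.Sat f p) → (∀ p ∈ layers n k w, B.Sat g p) →
      level n f (k + w.length) = level n g (k + w.length) → level n f k = level n g k := by
  induction w with
  | nil => intro k _ _ h; exact h
  | cons l w ih =>
    intro k hf hg h
    refine layer_det l (fun p hp => hf p (List.mem_append_left _ hp))
      (fun p hp => hg p (List.mem_append_left _ hp)) ?_
    refine ih (k + 1) (fun p hp => hf p (List.mem_append_right _ hp))
      (fun p hp => hg p (List.mem_append_right _ hp)) ?_
    have e1 : k + (l :: w).length = k + 1 + w.length := by simp; ring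
    rw [e1] at h
    exact h

/-- In a monotone diagram the colours at the top determine the colours at the bottom. -/
theorem braid_det {X : Type} (B : Bq X) {n : ℕ} (w : List (Letter n)) {x x' y : Fin n → X}
    (h : B.Col (braidDiagram w) x y) (h' : B.Col (braidDiagram w) x' y) : x = x' := by
  obtain ⟨f, f1, f2, f3⟩ := h
  obtain ⟨g, g1, g2, g3⟩ := h'
  have h1 := layers_det w 0 f1 g1 (by
    rw [zero_add]
    funext j
    exact (f3 j).trans (g3 j).symm)
  funext j
  exact (f2 j).symm.trans ((congrFun h1 j).trans (g2 j))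

end Pool.Agent.H297R3.SL
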