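import Mathlib
import Pool.Agent.H297R3.SV.Inv

set_option autoImplicit false

namespace Pool.Agent.H297R3.SL

open Pool.Agent.Helper718.VB

/-- A diagram with four classical crossings: the first strand meets the third and then the second
one, the second strand meets the first and then the fourth one, the third strand meets the fourth
and then the first one, the fourth strand meets the second and then the third one. -/
def cyc (m : ℕ) : Diagram (m + 4) where
  bot j := ((j : ℕ), 0)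
  top j := ((j : ℕ), if (j : ℕ) < 4 then 2 else 0)
  pieces := [Piece.cross true (0, 1) (0, 2) (1, 0) (1, 1),
    Piece.cross true (0, 0) (0, 1) (2, 1) (2, 2),
    Piece.cross true (1, 1) (1, 2) (3, 0) (3, 1),
    Piece.cross true (2, 0) (2, 1) (3, 1) (3, 2)]

def rest (m : ℕ) : List Edge := List.ofFn fun i : Fin m => (((i : ℕ) + 4, 0) : Edge)

theorem cyc_top (m : ℕ) : List.ofFn (cyc m).top =
    [(0, 2), (1, 2), (2, 2), (3, 2)] ++ rest m := by
  rw [List.ofFn_succ, List.ofFn_succ, List.ofFn_succ, List.ofFn_succ]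
  unfold rest
  simp only [List.cons_append, List.nil_append, List.cons.injEq]
  refine ⟨rfl, rfl, rfl, rfl, ?_⟩
  congr 1

theorem cyc_bot (m : ℕ) : List.ofFn (cyc m).bot =
    [(0, 0), (1, 0), (2, 0), (3, 0)] ++ rest m := by
  rw [List.ofFn_succ, List.ofFn_succ, List.ofFn_succ, List.ofFn_succ]
  rfl

theorem rest_mem {m : ℕ} {e : Edge} (h : e ∈ rest m) : ∃ i : Fin m, e = ((i : ℕ) + 4, 0) := by
  unfold rest at h
  rw [List.mem_ofFn'] at h
  obtain ⟨i, hi⟩ := h
  exact ⟨i, hi.symm⟩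

theorem rest_nodup (m : ℕ) : (rest m).Nodup := by
  unfold rest
  rw [List.nodup_ofFn]
  intro i j h
  simp only [Prod.mk.injEq, and_true] at h
  exact Fin.ext (by omega)

def small : List Edge := insOf (cyc 0).pieces ++ [(0, 2), (1, 2), (2, 2), (3, 2)]

theorem cyc_ins (m : ℕ) : insOf (cyc m).pieces ++ List.ofFn (cyc m).top = small ++ rest m := by
  rw [cyc_top, ← List.append_assoc]
  rfl

theorem cyc_nodup (m : ℕ) : (small ++ rest m).Nodup := by
  refine List.Nodup.append (by decide) (rest_nodup m) ?_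
  intro e h1 h2
  obtain ⟨i, rfl⟩ := rest_mem h2
  have h3 : ∀ e ∈ small, e.1 < 4 := by decide
  have := h3 _ h1
  simp at this

theorem cyc_perm (m : ℕ) : (small ++ rest m).Perm
    (outsOf (cyc m).pieces ++ List.ofFn (cyc m).bot) := by
  rw [cyc_bot, ← List.append_assoc]
  refine List.Perm.append_right _ ?_
  show small.Perm (outsOf (cyc 0).pieces ++ [(0, 0), (1, 0), (2, 0), (3, 0)])
  decide

theorem cyc_next (m j : ℕ) (hj : j < 4) (t : ℕ) (ht : t < 2) :
    Next (cyc m).pieces (j, t) (j, t + 1) := by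
  have h : ∀ j : Fin 4, ∀ t : Fin 2, ((((j : ℕ), (t : ℕ)) : Edge), (((j : ℕ), (t : ℕ) + 1) : Edge)) ∈
      (cyc 0).pieces.flatMap Piece.passages := by decide
  have h1 := h ⟨j, hj⟩ ⟨t, ht⟩
  obtain ⟨p, hp, h2⟩ := List.mem_flatMap.mp h1
  exact ⟨p, hp, h2⟩

theorem cyc_path (m : ℕ) (j : Fin (m + 4)) (hj : (j : ℕ) < 4) (t : ℕ) (ht : t ≤ 2) :
    Relation.ReflTransGen (Next (cyc m).pieces) ((cyc m).bot j) ((j : ℕ), t) := by
  induction t with
  | zero => exact Relation.ReflTransGen.refl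
  | succ t ih => exact (ih (by omega)).tail (cyc_next m j hj t (by omega))

theorem cyc_isStringLink (m : ℕ) : IsStringLink (cyc m) := by
  refine ⟨?_, ?_, ?_, ?_⟩
  · rw [cyc_ins]; exact cyc_nodup m
  · rw [cyc_ins]; exact cyc_perm m
  · intro j
    by_cases hj : (j : ℕ) < 4
    · have h : (cyc m).top j = ((j : ℕ), 2) := by
        show (((j : ℕ), if (j : ℕ) < 4 then 2 else 0) : Edge) = _
        rw [if_pos hj]
      rw [h]
      exact cyc_path m j hj 2 le_rfl
    · have h : (cyc m).top j = (cyc m).bot j := by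
        show (((j : ℕ), if (j : ℕ) < 4 then 2 else 0) : Edge) = ((j : ℕ), 0)
        rw [if_neg hj]
      rw [h]
  · intro e he
    rw [cyc_ins] at he
    rcases List.mem_append.mp he with he | he
    · have h : ∀ e ∈ small, e.1 < 4 ∧ e.2 ≤ 2 := by decide
      obtain ⟨h1, h2⟩ := h e he
      exact ⟨⟨e.1, by omega⟩, cyc_path m ⟨e.1, by omega⟩ h1 e.2 h2⟩
    · obtain ⟨i, rfl⟩ := rest_mem he
      exact ⟨⟨(i : ℕ) + 4, by omega⟩, Relation.ReflTransGen.refl⟩

/-- the tag of the strand `j` -/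
def tg (j : ℕ) : Fin 5 :=
  match j with
  | 0 => 1
  | 1 => 2
  | 2 => 3
  | 3 => 4
  | _ => 0

/-- the zero colouring -/
def f0 (e : Edge) : Lab := (tg e.1, false, false)

/-- the nonzero colouring -/
def f1 (e : Edge) : Lab :=
  match e with
  | (0, 0) => (1, false, true)
  | (0, 1) => (1, false, true)
  | (1, 0) => (2, true, true)
  | (1, 1) => (2, true, false)
  | (2, 0) => (3, true, true)
  | (2, 1) => (3, true, false)
  | (3, 0) => (4, false, true)
  | (3, 1) => (4, false, true)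
  | (j, _) => (tg j, false, false)

theorem K_dec (s : Bool) (oi oo ui uo : Lab) : bq5.K s oi oo ui uo ↔
    if s then (LA uo oo = oi ∧ LC uo oo = ui) else (LA ui oi = oo ∧ LC ui oi = uo) := by
  cases s <;> exact Iff.rfl

theorem f0_sat (m : ℕ) : ∀ p ∈ (cyc m).pieces, bq5.Sat f0 p := by
  simp only [cyc, List.mem_cons, List.not_mem_nil, or_false, forall_eq_or_imp, forall_eq,
    Bq.Sat, K_dec]
  decide

theorem f1_sat (m : ℕ) : ∀ p ∈ (cyc m).pieces, bq5.Sat f1 p := by
  simp only [cyc, List.mem_cons, List.not_mem_nil, or_false, forall_eq_or_imp, forall_eq,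
    Bq.Sat, K_dec]
  decide

theorem f_top (j : ℕ) : f1 (j, if j < 4 then 2 else 0) = f0 (j, if j < 4 then 2 else 0) := by
  by_cases hj : j < 4
  · rw [if_pos hj]
    interval_cases j <;> rfl
  · rw [if_neg hj]
    obtain ⟨k, rfl⟩ : ∃ k, j = k + 4 := ⟨j - 4, by omega⟩
    rfl

/-- The diagram `cyc m` is not equivalent to a monotone diagram. -/
theorem cyc_not_monotone (m : ℕ) (w : List (Letter (m + 4))) (hw : toVB w ∈ vP (m + 4)) :
    (Quot.mk _ ⟨cyc m, cyc_isStringLink m⟩ : vSLsv (m + 4)) ≠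
      Quot.mk _ ⟨braidDiagram w, braid_isStringLink w hw⟩ := by
  intro h
  have c0 : bq5.Col (cyc m) (fun j => f0 ((cyc m).bot j)) (fun j => f0 ((cyc m).top j)) :=
    ⟨f0, f0_sat m, fun _ => rfl, fun _ => rfl⟩
  have c1 : bq5.Col (cyc m) (fun j => f1 ((cyc m).bot j)) (fun j => f0 ((cyc m).top j)) :=
    ⟨f1, f1_sat m, fun _ => rfl, fun j => f_top j⟩
  have d0 := (col_vSLsv h _ _).mp c0
  have d1 := (col_vSLsv h _ _).mp c1
  have h1 := congrFun (braid_det bq5 w d0 d1) ⟨0, by omega⟩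
  have h2 : ((1, false, false) : Lab) = (1, false, true) := h1
  exact absurd h2 (by decide)

theorem not_surjective (n : ℕ) (hn : 4 ≤ n) : ∃ D : StringLinkDiagram n,
    ∀ (w : List (Letter n)) (hw : toVB w ∈ vP n),
      (Quot.mk _ D : vSLsv n) ≠ Quot.mk _ ⟨braidDiagram w, braid_isStringLink w hw⟩ := by
  obtain ⟨m, rfl⟩ : ∃ m, n = m + 4 := ⟨n - 4, by omega⟩
  exact ⟨⟨cyc m, cyc_isStringLink m⟩, cyc_not_monotone m⟩

end Pool.Agent.H297R3.SL
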